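import Mathlib
import Pool.Agent.H.MP_b62fd5_al.Main

set_option autoImplicit false

namespace Pool.Agent.Results.MP_b62fd5_al.Q1

open Pool.Agent.H.MP_b62fd5_al

theorem result : ∃ (T : Type) (m : T → T → T), IsQuasigroup m ∧
    (∀ (G : Type) [Group G], ¬ Isotopic m (fun x y : G => x * y)) ∧
    (∀ (S : Type) [Finite S] (n : S → S → S), ¬ Isotopic m n) ∧ IsPrimitive m := by
  obtain ⟨m, q, h, p⟩ := main
  exact ⟨ℕ, m, q, not_group h, fun S _ n ⟨α, _⟩ => not_finite_iff_infinite.2 inferInstance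
    (Finite.of_equiv S α.symm), p⟩

end Pool.Agent.Results.MP_b62fd5_al.Q1
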